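import Mathlib
import Pool.Agent.N594.CT.Stm

/-!
# CT/KK: from the derived graph to the graph (helper441, for helper594)
-/

set_option autoImplicit false

open Finset
open scoped Classical

namespace Pool.Agent.N441.CT.KK

open Pool.Agent.N594.CT

theorem pull_le {V : Type} [Fintype V] {A B : Type} [Fintype A] [Fintype B] (e : A → B)
    (he : Function.Injective e)
    (s : Finset (B → V)) (t : Finset (A → V)) (h : ∀ w ∈ s, w ∘ e ∈ t) :
    s.card ≤ t.card * Fintype.card V ^ (Fintype.card B - Fintype.card A) := by
  have h1 : s.card ≤ (t ×ˢ (univ : Finset ({j : B // j ∉ Set.range e} → V))).card := by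
    refine card_le_card_of_injOn (fun w => (w ∘ e, fun j => w j.1)) ?_ ?_
    · intro w hw
      exact mem_coe.mpr (mem_product.mpr ⟨h w hw, mem_univ _⟩)
    · intro w _ w' _ h
      have ha := (Prod.mk.inj h).1
      have hb := (Prod.mk.inj h).2
      funext j
      by_cases hj : j ∈ Set.range e
      · obtain ⟨i, rfl⟩ := hj
        exact congrFun ha i
      · exact congrFun hb ⟨j, hj⟩
  refine h1.trans (le_of_eq ?_)
  rw [card_product, card_univ (α := {j : B // j ∉ Set.range e} → V), Fintype.card_fun]
  have h2 : Fintype.card {j : B // j ∉ Set.range e} = Fintype.card B - Fintype.card A := by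
    rw [Fintype.card_subtype_compl]
    have h3 : Fintype.card {j : B // j ∈ Set.range e} = Fintype.card A :=
      (Fintype.card_congr (Equiv.ofInjective e he)).symm
    rw [h3]
  rw [h2]

theorem bad_card {V : Type} [Fintype V] (H H' : Finset V → Prop) (l : ℕ) {I : Type} [Fintype I]
    [DecidableEq I]
    (e : Finset I) (c : I) (hc : c ∈ e) (he : e.card = l + 1) :
    (univ.filter fun K : I → V => H' ((e.erase c).image K) ∧
      ¬ H (insert (K c) ((e.erase c).image K))).card ≤
      miss l H H' * Fintype.card V ^ (Fintype.card I - (l + 1)) := by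
  have hcard : (e.erase c).card = l := by
    rw [card_erase_of_mem hc, he]
    rfl
  obtain ⟨E, -⟩ : ∃ E : (e.erase c : Finset I) ≃ Fin l, True :=
    ⟨(e.erase c).equivFinOfCardEq hcard, trivial⟩
  obtain ⟨g, hg⟩ : ∃ g : Option (Fin l) → I, g = fun o => o.elim c (fun j => (E.symm j : I)) :=
    ⟨_, rfl⟩
  have hg0 : g none = c := by rw [hg]; rfl
  have hg1 : ∀ j, g (some j) = (E.symm j : I) := fun j => by rw [hg]; rfl
  have hinj : Function.Injective g := by
    intro a b hab
    rcases a with _ | a
    · rcases b with _ | b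
      · rfl
      · rw [hg0, hg1] at hab
        have h1 := (E.symm b).2
        rw [← hab] at h1
        exact absurd h1 (notMem_erase c e)
    · rcases b with _ | b
      · rw [hg0, hg1] at hab
        have h1 := (E.symm a).2
        rw [hab] at h1
        exact absurd h1 (notMem_erase c e)
      · rw [hg1, hg1] at hab
        rw [E.symm.injective (Subtype.ext hab)]
  have himg : ∀ K : I → V, (e.erase c).image K = univ.image (fun j : Fin l => K (g (some j))) := by
    intro K
    ext v
    rw [mem_image, mem_image]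
    constructor
    · rintro ⟨a, ha, rfl⟩
      refine ⟨E ⟨a, ha⟩, mem_univ _, ?_⟩
      rw [hg1, Equiv.symm_apply_apply]
    · rintro ⟨j, -, rfl⟩
      refine ⟨g (some j), ?_, rfl⟩
      rw [hg1]
      exact (E.symm j).2
  obtain ⟨T, hT⟩ : ∃ T : Finset (Option (Fin l) → V), T = univ.filter (fun w =>
    H' (univ.image (fun j : Fin l => w (some j))) ∧
      ¬ H (insert (w none) (univ.image (fun j : Fin l => w (some j))))) := ⟨_, rfl⟩
  have h1 := pull_le g hinj (univ.filter fun K : I → V => H' ((e.erase c).image K) ∧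
      ¬ H (insert (K c) ((e.erase c).image K))) T (by
    intro K hK
    rw [mem_filter, himg] at hK
    rw [hT, mem_filter]
    refine ⟨mem_univ _, hK.2.1, ?_⟩
    have h2 := hK.2.2
    rw [← hg0] at h2
    exact h2)
  rw [Fintype.card_option, Fintype.card_fin] at h1
  refine h1.trans (Nat.mul_le_mul_right _ ?_)
  unfold miss
  refine card_le_card_of_injOn (fun w => (w none, fun j => w (some j))) ?_ ?_
  · intro w hw
    rw [hT, mem_coe, mem_filter] at hw
    rw [mem_coe, mem_filter]
    exact ⟨mem_univ _, hw.2⟩
  · intro w _ w' _ h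
    have ha := (Prod.mk.inj h).1
    have hb := (Prod.mk.inj h).2
    funext o
    rcases o with _ | j
    · exact ha
    · exact congrFun hb j

/-- **CT/KK.** -/
theorem main : S_KK := by
  intro V _ _ H H' l k r δ hl _ hm
  have hn : (0 : ℝ) < Fintype.card V := by exact_mod_cast Fintype.card_pos
  have hδ : 0 ≤ δ := by
    have h1 : (0 : ℝ) ≤ miss l H H' := Nat.cast_nonneg _
    have h2 : (0 : ℝ) < (Fintype.card V : ℝ) ^ (l + 1) := by positivity
    by_contra h
    have h3 : δ * (Fintype.card V : ℝ) ^ (l + 1) < 0 := mul_neg_of_neg_of_pos (not_le.1 h) h2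
    linarith
  -- the bad configurations of a set
  have hS : ∀ e : Finset (Fin k × Fin r), ∃ S : Finset (Fin k × Fin r → V),
      (S.card : ℝ) ≤ δ * (Fintype.card V : ℝ) ^ (k * r) ∧
      ∀ K, WC l k r H' K → e.card = l + 1 → (∃ a ∈ e, ∃ b ∈ e, a.1 ≠ b.1) →
        ¬ H (e.image K) → K ∈ S := by
    intro e
    by_cases he : e.card = l + 1 ∧ (∃ a ∈ e, ∃ b ∈ e, a.1 ≠ b.1)
    · obtain ⟨he1, a, ha, b, hb, hab⟩ := he
      have h1 : ({a, b} : Finset (Fin k × Fin r)).card < e.card := by
        refine lt_of_le_of_lt card_le_two ?_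
        omega
      obtain ⟨c, hc, hc2⟩ := exists_mem_notMem_of_card_lt_card h1
      simp only [mem_insert, mem_singleton, not_or] at hc2
      have hN : l + 1 ≤ k * r := by
        have h2 := card_le_univ e
        rw [he1, Fintype.card_prod, Fintype.card_fin, Fintype.card_fin] at h2
        exact h2
      refine ⟨univ.filter fun K : Fin k × Fin r → V => H' ((e.erase c).image K) ∧
        ¬ H (insert (K c) ((e.erase c).image K)), ?_, ?_⟩
      · have h2 := bad_card H H' l e c hc he1
        rw [Fintype.card_prod, Fintype.card_fin, Fintype.card_fin] at h2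
        have h3 : ((univ.filter fun K : Fin k × Fin r → V => H' ((e.erase c).image K) ∧
            ¬ H (insert (K c) ((e.erase c).image K))).card : ℝ) ≤
            (miss l H H' : ℝ) * (Fintype.card V : ℝ) ^ (k * r - (l + 1)) := by
          exact_mod_cast h2
        refine h3.trans ?_
        calc (miss l H H' : ℝ) * (Fintype.card V : ℝ) ^ (k * r - (l + 1))
            ≤ δ * (Fintype.card V : ℝ) ^ (l + 1) * (Fintype.card V : ℝ) ^ (k * r - (l + 1)) :=
              mul_le_mul_of_nonneg_right hm (by positivity)
          _ = δ * (Fintype.card V : ℝ) ^ (k * r) := by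
              rw [mul_assoc, ← pow_add, Nat.add_sub_cancel' hN]
      · intro K hK _ _ hH
        rw [mem_filter]
        refine ⟨mem_univ _, hK _ ?_ ⟨a, mem_erase.2 ⟨Ne.symm hc2.1, ha⟩, b,
          mem_erase.2 ⟨Ne.symm hc2.2, hb⟩, hab⟩, ?_⟩
        · rw [card_erase_of_mem hc, he1]
          rfl
        · rw [← image_insert, insert_erase hc]
          exact hH
    · refine ⟨∅, ?_, fun K _ h1 h2 _ => absurd ⟨h1, h2⟩ he⟩
      rw [card_empty, Nat.cast_zero]
      positivity
  choose S hS1 hS2 using hS
  have hsub : (univ.filter fun K : Fin k × Fin r → V => WC l k r H' K) ⊆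
      (univ.filter fun K : Fin k × Fin r → V => WC (l + 1) k r H K) ∪ univ.biUnion S := by
    intro K hK
    rw [mem_filter] at hK
    rw [mem_union, mem_filter]
    by_cases h1 : WC (l + 1) k r H K
    · exact Or.inl ⟨mem_univ _, h1⟩
    · right
      unfold WC at h1
      push Not at h1
      obtain ⟨e, he1, he2, he3⟩ := h1
      rw [mem_biUnion]
      exact ⟨e, mem_univ _, hS2 e K hK.2 he1 he2 he3⟩
  have h1 : ((univ.filter fun K : Fin k × Fin r → V => WC l k r H' K).card : ℝ) ≤
      ((univ.filter fun K : Fin k × Fin r → V => WC (l + 1) k r H K).card : ℝ) +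
        2 ^ (k * r) * (δ * (Fintype.card V : ℝ) ^ (k * r)) := by
    have h2 := (card_le_card hsub).trans (card_union_le _ _)
    have h3 : ((univ.biUnion S).card : ℝ) ≤ 2 ^ (k * r) * (δ * (Fintype.card V : ℝ) ^ (k * r)) := by
      have h4 : ((univ.biUnion S).card : ℝ) ≤ ∑ e : Finset (Fin k × Fin r), ((S e).card : ℝ) := by
        exact_mod_cast card_biUnion_le
      refine h4.trans ((sum_le_sum fun e _ => hS1 e).trans (le_of_eq ?_))
      rw [sum_const, card_univ, Fintype.card_finset, Fintype.card_prod, Fintype.card_fin,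
        Fintype.card_fin, nsmul_eq_mul]
      push_cast
      ring
    have h5 : ((univ.filter fun K : Fin k × Fin r → V => WC l k r H' K).card : ℝ) ≤
        ((univ.filter fun K : Fin k × Fin r → V => WC (l + 1) k r H K).card : ℝ) +
          ((univ.biUnion S).card : ℝ) := by exact_mod_cast h2
    linarith
  have hN : (0 : ℝ) < (Fintype.card V : ℝ) ^ (k * r) := by positivity
  unfold pw
  rw [sub_le_iff_le_add, div_add' _ _ _ hN.ne']
  rw [div_le_div_iff_of_pos_right hN]
  refine h1.trans (le_of_eq ?_)
  ring

end Pool.Agent.N441.CT.KK
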